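import Pool.Agent.Lib.MP_b4205f_al.CH.Defs
import Mathlib.MeasureTheory.Integral.IntervalIntegral.FundThmCalculus
import Mathlib.Analysis.SpecialFunctions.Pow.Deriv

/-!
# Module ODE (helper81)
-/

set_option autoImplicit false

namespace Pool.Agent.Lib.MP_b4205f_al.H81

open MeasureTheory Pool.Agent.Lib.MP_b4205f_al.CH

/-- the antiderivative -/
noncomputable def GG (M b c : ℝ) (x : ℝ) : ℝ := -(c / b) * M * (M / x) ^ b - c * x

theorem GG_deriv {M b c x : ℝ} (hM : 0 < M) (hb : 0 < b) (hx : 0 < x) :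
    HasDerivAt (GG M b c) (c * ((M / x) ^ (1 + b) - 1)) x := by
  have h1 : HasDerivAt (fun x : ℝ => M / x) (-(M / x ^ 2)) x := by
    have h0 := (hasDerivAt_inv hx.ne').const_mul M
    have e0 : (fun x : ℝ => M / x) = fun y => M * y⁻¹ := by
      funext z; rw [div_eq_mul_inv]
    rw [e0]
    refine h0.congr_deriv ?_
    rw [div_eq_mul_inv]; ring
  have h2 : HasDerivAt (fun x : ℝ => (M / x) ^ b) (-(M / x ^ 2) * b * (M / x) ^ (b - 1)) x :=
    h1.rpow_const (Or.inl (by positivity))
  have h3 := (h2.const_mul (-(c / b) * M)).sub ((hasDerivAt_id x).const_mul c)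
  refine h3.congr_deriv ?_
  have hr : 0 < M / x := by positivity
  have e1 : (M / x) ^ (1 + b) = (M / x) ^ (b - 1) * (M / x) ^ 2 := by
    rw [← Real.rpow_natCast, ← Real.rpow_add hr]
    congr 1
    push_cast
    ring
  rw [e1]
  field_simp

theorem int_formula {M b c y : ℝ} (hM : 0 < M) (hb : 0 < b) (hy : 0 < y) (hyM : y ≤ M) :
    (∫ x in y..M, c * ((M / x) ^ (1 + b) - 1)) = GG M b c M - GG M b c y := by
  have hpos : ∀ x ∈ Set.uIcc y M, 0 < x := by
    intro x hx
    rw [Set.uIcc_of_le hyM] at hx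
    exact hy.trans_le hx.1
  refine intervalIntegral.integral_eq_sub_of_hasDerivAt
    (fun x hx => GG_deriv hM hb (hpos x hx)) ?_
  apply ContinuousOn.intervalIntegrable
  intro x hx
  have hx0 := hpos x hx
  apply ContinuousAt.continuousWithinAt
  have h1 : ContinuousAt (fun x : ℝ => M / x) x := continuousAt_const.div continuousAt_id hx0.ne'
  exact ((h1.rpow_const (Or.inr (by linarith))).sub continuousAt_const).const_mul c

theorem GG_sub {M b y : ℝ} (hM : 0 < M) (hb : 0 < b) :
    GG M b (b / ((1 + b) * M)) M - GG M b (b / ((1 + b) * M)) y =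
      ((M / y) ^ b + b * y / M) / (1 + b) - 1 := by
  unfold GG
  rw [div_self hM.ne', Real.one_rpow]
  have h1 : (1 + b) ≠ 0 := by positivity
  field_simp
  ring

theorem be_pos {p n : ℕ} (hp : 2 ≤ p) (hn : 2 ≤ n) : 0 < be p n := by
  unfold be
  have h1 : (0 : ℝ) < p := by exact_mod_cast (by omega : 0 < p)
  have h2 : (0 : ℝ) < n := by exact_mod_cast (by omega : 0 < n)
  positivity

theorem MM_gt {p n : ℕ} (hp : 2 ≤ p) (hpn : p < n ^ 2) : 1 < MM p n := by
  unfold MM
  have h1 : (0 : ℝ) < p := by exact_mod_cast (by omega : 0 < p)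
  rw [lt_div_iff₀ h1, one_mul]
  exact_mod_cast hpn

theorem int_ss {p n : ℕ} (hp : 2 ≤ p) (hn : 2 ≤ n) (hpn : p < n ^ 2) {y : ℝ} (hy : 0 < y)
    (hyM : y ≤ MM p n) : (∫ x in y..MM p n, ss p n x) =
      ((MM p n / y) ^ be p n + be p n * y / MM p n) / (1 + be p n) - 1 := by
  have hM : 0 < MM p n := lt_trans one_pos (MM_gt hp hpn)
  have hb := be_pos hp hn
  rw [← GG_sub hM hb, ← int_formula hM hb hy hyM]
  refine intervalIntegral.integral_congr fun x hx => ?_
  rw [Set.uIcc_of_le hyM] at hx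
  unfold ss
  rw [if_pos hx.2]

theorem ss_nonneg {p n : ℕ} (hp : 2 ≤ p) (hn : 2 ≤ n) (hpn : p < n ^ 2) {y : ℝ} (hy : 0 < y) :
    0 ≤ ss p n y := by
  have hM : 0 < MM p n := lt_trans one_pos (MM_gt hp hpn)
  have hb := be_pos hp hn
  unfold ss
  split_ifs with h
  · have h1 : 1 ≤ MM p n / y := by rw [le_div_iff₀ hy, one_mul]; exact h
    have h2 : 1 ≤ (MM p n / y) ^ (1 + be p n) := Real.one_le_rpow h1 (by linarith)
    have h3 : 0 ≤ be p n / ((1 + be p n) * MM p n) := by positivity
    exact mul_nonneg h3 (by linarith)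
  · exact le_rfl

/-- Module ODE. -/
theorem ode : ODE_S := by
  intro p n hp hn hpn
  have hM1 := MM_gt hp hpn
  have hM : 0 < MM p n := lt_trans one_pos hM1
  have hb := be_pos hp hn
  have hp0 : (0 : ℝ) < p := by exact_mod_cast (by omega : 0 < p)
  have hn0 : (0 : ℝ) < n := by exact_mod_cast (by omega : 0 < n)
  refine ⟨fun y hy => ss_nonneg hp hn hpn hy, ?_, ?_, ?_, ?_⟩
  · intro y hy
    unfold ph
    split_ifs with h
    · have h1 : (p : ℝ) * y ≤ (n : ℝ) ^ 2 := by
        unfold MM at h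
        rw [le_div_iff₀ hp0] at h
        linarith
      have h2 : 0 < (p : ℝ) * y := by positivity
      have h3 : 2 / (n : ℝ) ^ 2 ≤ 2 / (p * y) := by
        apply div_le_div_of_nonneg_left (by norm_num) h2 h1
      linarith
    · exact le_rfl
  · intro x hx y hy hxy
    have hx0 : 0 < x := lt_of_lt_of_le one_pos hx
    have hy0 : 0 < y := lt_of_lt_of_le one_pos hy
    rcases le_or_gt y (MM p n) with h | h
    · unfold ss
      rw [if_pos h, if_pos (hxy.trans h)]
      have h3 : 0 ≤ be p n / ((1 + be p n) * MM p n) := by positivity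
      have h4 : MM p n / y ≤ MM p n / x := div_le_div_of_nonneg_left hM.le hx0 hxy
      have h5 : (MM p n / y) ^ (1 + be p n) ≤ (MM p n / x) ^ (1 + be p n) :=
        Real.rpow_le_rpow (by positivity) h4 (by linarith)
      exact mul_le_mul_of_nonneg_left (by linarith) h3
    · have : ss p n y = 0 := by unfold ss; rw [if_neg (not_le.2 h)]
      rw [this]
      exact ss_nonneg hp hn hpn hx0
  · rw [int_ss hp hn hpn one_pos hM1.le]
    unfold QQ
    rw [div_one, mul_one]
  · intro y hy hyM
    have hy0 : 0 < y := lt_of_lt_of_le one_pos hy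
    rw [int_ss hp hn hpn hy0 hyM]
    unfold ss ph
    rw [if_pos hyM, if_pos hyM]
    have hr : 0 < MM p n / y := by positivity
    have e1 : (MM p n / y) ^ (1 + be p n) = (MM p n / y) * (MM p n / y) ^ be p n := by
      rw [Real.rpow_add hr, Real.rpow_one]
    rw [e1]
    generalize hR : (MM p n / y) ^ be p n = R
    have e2 : be p n * (p * ((n : ℝ) ^ 2 + 2)) = 2 * (n : ℝ) ^ 2 := by
      unfold be
      field_simp
    have e3 : MM p n * p = (n : ℝ) ^ 2 := by
      unfold MM
      field_simp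
    have e4 : be p n * ((n : ℝ) ^ 2 + 2) = 2 * MM p n := by
      have : p * (be p n * ((n : ℝ) ^ 2 + 2)) = p * (2 * MM p n) := by linarith
      exact mul_left_cancel₀ hp0.ne' this
    have h1 : (1 + be p n) ≠ 0 := by positivity
    generalize hbb : be p n = b at *
    generalize hMM : MM p n = M at *
    rw [← e3]
    have e5 : b * (M * p + 2) = 2 * M := by rw [e3]; exact e4
    field_simp
    linear_combination (R * M - y) * e5

end Pool.Agent.Lib.MP_b4205f_al.H81
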