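import Pool.Agent.Lib.MP_b4205f_al.CH.Defs

/-!
# Module PT (helper81)
-/

set_option autoImplicit false

namespace Pool.Agent.Lib.MP_b4205f_al.H81

open MeasureTheory Pool.Agent.Lib.MP_b4205f_al.CH

/-- the test function, cut off at `0` -/
noncomputable def sf (p n : ℕ) (x : ℝ) : ℝ := if 0 < x then ss p n x else 0

theorem sum_reflect (B : ℕ) (F : ℤ → ℝ) :
    ∑ m ∈ Finset.Icc (-(B : ℤ)) (B : ℤ), F (-m) = ∑ m ∈ Finset.Icc (-(B : ℤ)) (B : ℤ), F m := by
  refine Finset.sum_nbij' (fun m => -m) (fun m => -m) ?_ ?_ ?_ ?_ ?_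
  · intro m hm
    rw [Finset.mem_Icc] at *
    omega
  · intro m hm
    rw [Finset.mem_Icc] at *
    omega
  · intro m _; ring
  · intro m _; ring
  · intro m _; rfl

/-- splitting into the positive and the negative part -/
theorem split_term (p n : ℕ) {y w : ℝ} (hy : 0 < y) :
    (if y < |w| then ss p n |w| else 0) =
      (if y < w then sf p n w else 0) + (if y < -w then sf p n (-w) else 0) := by
  rcases le_or_gt 0 w with h | h
  · rw [abs_of_nonneg h]
    have h1 : ¬ y < -w := by intro h2; linarith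
    rw [if_neg h1, add_zero]
    by_cases h2 : y < w
    · rw [if_pos h2, if_pos h2, sf, if_pos (by linarith)]
    · rw [if_neg h2, if_neg h2]
  · rw [abs_of_neg h]
    have h1 : ¬ y < w := by intro h2; linarith
    rw [if_neg h1, zero_add]
    by_cases h2 : y < -w
    · rw [if_pos h2, if_pos h2, sf, if_pos (by linarith)]
    · rw [if_neg h2, if_neg h2]

theorem range_bound {p n t y : ℝ} (hp : 2 ≤ p) (hn : 2 ≤ n) (hy : 1 < y) (ht : |t| < y) :
    |t / n ^ 2| + n ^ 2 / p ≤ p * y / n ^ 2 * (n ^ 4 + 1) := by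
  have hn2 : 0 < n ^ 2 := by positivity
  have h1 : |t / n ^ 2| ≤ y / n ^ 2 := by
    rw [abs_div, abs_of_pos hn2]
    exact div_le_div_of_nonneg_right ht.le hn2.le
  have h2 : n ^ 2 / p ≤ n ^ 2 := div_le_self hn2.le (by linarith)
  have h3 : p * y / n ^ 2 * (n ^ 4 + 1) = p * y * n ^ 2 + p * (y / n ^ 2) := by
    field_simp
  have hq : 0 ≤ y / n ^ 2 := by positivity
  have h4 : n ^ 2 ≤ p * y * n ^ 2 := by
    have : 1 ≤ p * y := by nlinarith
    nlinarith
  have h5 : y / n ^ 2 ≤ p * (y / n ^ 2) := by nlinarith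
  rw [h3]
  linarith

/-- Module PT. -/
theorem pt (h1 : GRID_S) (h2 : ODE_S) : PT_S := by
  intro p n hp hn hpn z t hz ht
  obtain ⟨o1, o2, o3, o4, o5⟩ := h2 p n hp hn hpn
  have hp0 : (0 : ℝ) < p := by exact_mod_cast (by omega : 0 < p)
  have hn0 : (0 : ℝ) < n := by exact_mod_cast (by omega : 0 < n)
  have hn2 : (0 : ℝ) < (n : ℝ) ^ 2 := by positivity
  have hy0 : 0 < |z| := lt_trans one_pos hz
  set F : ℤ → ℝ := fun m =>
    (if |z| < |(t + (p : ℝ) * (m : ℝ) * z) / (n : ℝ) ^ 2| then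
      ss p n |(t + (p : ℝ) * (m : ℝ) * z) / (n : ℝ) ^ 2| else 0) with hF
  have hF0 : ∀ m, 0 ≤ F m := by
    intro m
    rw [hF]
    dsimp only
    split_ifs with h
    · exact o1 _ (hy0.trans h)
    · exact le_rfl
  rcases lt_or_ge (MM p n) |z| with hM | hM
  · have e1 : ss p n |z| = 0 := by unfold ss; rw [if_neg (not_le.2 hM)]
    rw [e1]
    refine add_nonneg (o2 _ hz.le) (Finset.sum_nonneg fun m _ => ?_)
    exact mul_nonneg (by positivity) (hF0 m)
  · set δ : ℝ := p * |z| / (n : ℝ) ^ 2 with hδ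
    have hδ0 : 0 < δ := by positivity
    have hanti : AntitoneOn (sf p n) (Set.Icc |z| (MM p n)) := by
      intro a ha b hb hab
      have ha1 : 1 ≤ a := hz.le.trans ha.1
      have hb1 : 1 ≤ b := hz.le.trans hb.1
      unfold sf
      rw [if_pos (by linarith), if_pos (by linarith)]
      exact o3 ha1 hb1 hab
    have hsf0 : ∀ x, 0 ≤ sf p n x := by
      intro x
      unfold sf
      split_ifs with h
      · exact o1 x h
      · exact le_rfl
    have hsfM : ∀ x, MM p n < x → sf p n x = 0 := by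
      intro x hx
      unfold sf ss
      rw [if_neg (not_le.2 hx)]
      simp
    have hint : (∫ x in |z|..MM p n, sf p n x) = ∫ x in |z|..MM p n, ss p n x := by
      refine intervalIntegral.integral_congr fun x hx => ?_
      rw [Set.uIcc_of_le hM] at hx
      unfold sf
      rw [if_pos (hy0.trans_le hx.1)]
    have hB : ∀ τ : ℝ, |τ| < |z| → |τ / (n : ℝ) ^ 2| + MM p n ≤ δ * (BB n : ℝ) := by
      intro τ hτ
      have := range_bound (p := p) (n := n) (t := τ) (y := |z|) (by exact_mod_cast hp)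
        (by exact_mod_cast hn) hz hτ
      unfold BB MM
      push_cast
      exact this
    have g1 := h1 (sf p n) |z| (MM p n) δ (t / (n : ℝ) ^ 2) (BB n) hδ0 hy0 hM hanti hsf0 hsfM
      (hB t ht)
    have g2 := h1 (sf p n) |z| (MM p n) δ (-t / (n : ℝ) ^ 2) (BB n) hδ0 hy0 hM hanti hsf0 hsfM
      (hB (-t) (by rwa [abs_neg]))
    have e0 : sf p n |z| = ss p n |z| := by unfold sf; rw [if_pos hy0]
    rw [hint, e0] at g1 g2
    -- the sum of the two parts
    have hsum : ∑ m ∈ Finset.Icc (-(BB n : ℤ)) (BB n : ℤ), F m =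
        (∑ m ∈ Finset.Icc (-(BB n : ℤ)) (BB n : ℤ),
          if |z| < t / (n : ℝ) ^ 2 + δ * (m : ℝ) then sf p n (t / (n : ℝ) ^ 2 + δ * (m : ℝ)) else 0) +
        ∑ m ∈ Finset.Icc (-(BB n : ℤ)) (BB n : ℤ),
          if |z| < -t / (n : ℝ) ^ 2 + δ * (m : ℝ) then sf p n (-t / (n : ℝ) ^ 2 + δ * (m : ℝ))
            else 0 := by
      have e1 : ∀ m : ℤ, F m =
          (if |z| < (t + (p : ℝ) * (m : ℝ) * z) / (n : ℝ) ^ 2 then
            sf p n ((t + (p : ℝ) * (m : ℝ) * z) / (n : ℝ) ^ 2) else 0) +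
          (if |z| < -((t + (p : ℝ) * (m : ℝ) * z) / (n : ℝ) ^ 2) then
            sf p n (-((t + (p : ℝ) * (m : ℝ) * z) / (n : ℝ) ^ 2)) else 0) :=
        fun m => split_term p n hy0
      rw [Finset.sum_congr rfl fun m _ => e1 m, Finset.sum_add_distrib]
      rcases le_or_gt 0 z with hz0 | hz0
      · congr 1
        · refine Finset.sum_congr rfl fun m _ => ?_
          have e2 : (t + (p : ℝ) * (m : ℝ) * z) / (n : ℝ) ^ 2 = t / (n : ℝ) ^ 2 + δ * (m : ℝ) := by
            rw [hδ, abs_of_nonneg hz0]; ring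
          rw [e2]
        · rw [← sum_reflect]
          refine Finset.sum_congr rfl fun m _ => ?_
          have e2 : -((t + (p : ℝ) * ((-m : ℤ) : ℝ) * z) / (n : ℝ) ^ 2) =
              -t / (n : ℝ) ^ 2 + δ * (m : ℝ) := by
            rw [hδ, abs_of_nonneg hz0]; push_cast; ring
          rw [e2]
      · congr 1
        · rw [← sum_reflect]
          refine Finset.sum_congr rfl fun m _ => ?_
          have e2 : (t + (p : ℝ) * ((-m : ℤ) : ℝ) * z) / (n : ℝ) ^ 2 =
              t / (n : ℝ) ^ 2 + δ * (m : ℝ) := by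
            rw [hδ, abs_of_neg hz0]; push_cast; ring
          rw [e2]
        · refine Finset.sum_congr rfl fun m _ => ?_
          have e2 : -((t + (p : ℝ) * (m : ℝ) * z) / (n : ℝ) ^ 2) =
              -t / (n : ℝ) ^ 2 + δ * (m : ℝ) := by
            rw [hδ, abs_of_neg hz0]; ring
          rw [e2]
    rw [← Finset.mul_sum]
    change ss p n |z| ≤ ph p n |z| + 1 / (n : ℝ) ^ 2 * ∑ m ∈ Finset.Icc (-(BB n : ℤ)) (BB n : ℤ), F m
    have g3 : 2 * (1 / δ * (∫ x in |z|..MM p n, ss p n x) - ss p n |z|) ≤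
        ∑ m ∈ Finset.Icc (-(BB n : ℤ)) (BB n : ℤ), F m := by
      rw [hsum]; linarith
    have g4 := mul_le_mul_of_nonneg_left g3 (by positivity : 0 ≤ 1 / (n : ℝ) ^ 2)
    have g5 := o5 |z| hz.le hM
    have g6 : 1 / (n : ℝ) ^ 2 * (2 * (1 / δ * (∫ x in |z|..MM p n, ss p n x) - ss p n |z|)) =
        2 / (p * |z|) * (∫ x in |z|..MM p n, ss p n x) - 2 / (n : ℝ) ^ 2 * ss p n |z| := by
      rw [hδ]
      field_simp
    rw [g6] at g4
    linarith

end Pool.Agent.Lib.MP_b4205f_al.H81
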