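import Pool.Agent.Lib.MP_b4205f_al.CH.Defs
import Mathlib.MeasureTheory.Integral.IntervalIntegral.FundThmCalculus

/-!
# Module GRID (helper81)
-/

set_option autoImplicit false

namespace Pool.Agent.Lib.MP_b4205f_al.H81

open MeasureTheory Pool.Agent.Lib.MP_b4205f_al.CH

theorem int_le_left {f : ℝ → ℝ} {a b : ℝ} (hab : a ≤ b) (hf : AntitoneOn f (Set.Icc a b)) :
    (∫ x in a..b, f x) ≤ (b - a) * f a := by
  have h1 : IntervalIntegrable f volume a b := by
    apply AntitoneOn.intervalIntegrable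
    rwa [Set.uIcc_of_le hab]
  have h2 := intervalIntegral.integral_mono_on hab h1
    (intervalIntegrable_const (c := f a)) fun x hx =>
      hf (Set.left_mem_Icc.2 hab) hx hx.1
  rwa [intervalIntegral.integral_const, smul_eq_mul] at h2

theorem anti_int {f : ℝ → ℝ} {y : ℝ} (hf : AntitoneOn f (Set.Ici y)) {a b : ℝ} (ha : y ≤ a)
    (hab : a ≤ b) : IntervalIntegrable f volume a b := by
  apply AntitoneOn.intervalIntegrable
  rw [Set.uIcc_of_le hab]
  exact hf.mono fun x hx => ha.trans hx.1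

theorem grid_step {f : ℝ → ℝ} {y x0 δ : ℝ} (hδ : 0 < δ) (hf : AntitoneOn f (Set.Ici y))
    (hf0 : ∀ x, 0 ≤ f x) (h0 : y ≤ x0) (h1 : x0 ≤ y + δ) (N : ℕ) :
    (∫ x in y..(x0 + δ * N), f x) ≤ δ * f y + δ * ∑ k ∈ Finset.range N, f (x0 + δ * k) := by
  induction N with
  | zero =>
    simp only [Nat.cast_zero, mul_zero, add_zero, Finset.range_zero, Finset.sum_empty]
    refine (int_le_left h0 (hf.mono fun x hx => hx.1)).trans ?_
    exact mul_le_mul_of_nonneg_right (by linarith) (hf0 y)
  | succ N ih =>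
    have e1 : y ≤ x0 + δ * N := by
      have : 0 ≤ δ * (N : ℝ) := by positivity
      linarith
    have e2 : x0 + δ * (N : ℝ) ≤ x0 + δ * ((N + 1 : ℕ) : ℝ) := by
      push_cast; nlinarith
    rw [← intervalIntegral.integral_add_adjacent_intervals (anti_int hf le_rfl e1)
      (anti_int hf e1 e2), Finset.sum_range_succ, mul_add]
    have h3 := int_le_left e2 (hf.mono fun x hx => e1.trans hx.1)
    have h4 : x0 + δ * ((N + 1 : ℕ) : ℝ) - (x0 + δ * (N : ℝ)) = δ := by push_cast; ring
    rw [h4] at h3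
    linarith

/-- Module GRID. -/
theorem grid : GRID_S := by
  intro f y M δ τ B hδ hy hyM hf hf0 hfM hB
  classical
  have hanti : AntitoneOn f (Set.Ici y) := by
    intro a ha b hb hab
    rcases le_or_gt b M with h | h
    · exact hf ⟨ha, hab.trans h⟩ ⟨hb, h⟩ hab
    · rw [hfM b h]; exact hf0 a
  set F : ℤ → ℝ := fun m => if y < τ + δ * (m : ℝ) then f (τ + δ * (m : ℝ)) else 0 with hF
  have hF0 : ∀ m, 0 ≤ F m := by
    intro m
    rw [hF]
    dsimp only
    split_ifs
    · exact hf0 _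
    · exact le_rfl
  obtain ⟨m0, h1, h2⟩ : ∃ m0 : ℤ, y < τ + δ * (m0 : ℝ) ∧ τ + δ * (m0 : ℝ) ≤ y + δ := by
    refine ⟨⌊(y - τ) / δ⌋ + 1, ?_, ?_⟩
    · have := Int.lt_floor_add_one ((y - τ) / δ)
      rw [div_lt_iff₀ hδ] at this
      push_cast
      linarith
    · have := Int.floor_le ((y - τ) / δ)
      rw [le_div_iff₀ hδ] at this
      push_cast
      linarith
  have hm0 : -(B : ℤ) ≤ m0 := by
    by_contra hcon
    push Not at hcon
    have h3 : (m0 : ℝ) < -(B : ℝ) := by exact_mod_cast hcon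
    have h4 : δ * (m0 : ℝ) < δ * (-(B : ℝ)) := mul_lt_mul_of_pos_left h3 hδ
    have h5 := le_abs_self τ
    linarith
  rcases lt_or_ge (B : ℤ) m0 with h | h
  · -- no points
    have h3 : ((B : ℝ) + 1) ≤ (m0 : ℝ) := by exact_mod_cast h
    have h4 : δ * ((B : ℝ) + 1) ≤ δ * (m0 : ℝ) := mul_le_mul_of_nonneg_left h3 hδ.le
    have h5 := neg_abs_le τ
    have h6 : M ≤ y := by linarith
    have h7 : y = M := le_antisymm hyM h6
    have e : (∫ x in y..M, f x) = 0 := by rw [h7, intervalIntegral.integral_same]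
    have h8 : 0 ≤ ∑ m ∈ Finset.Icc (-(B : ℤ)) (B : ℤ), F m := Finset.sum_nonneg fun m _ => hF0 m
    have h9 := hf0 y
    rw [e, mul_zero, zero_sub]
    linarith
  · set N : ℕ := (B + 1 - m0).toNat with hN
    have hN1 : (N : ℤ) = B + 1 - m0 := Int.toNat_of_nonneg (by linarith)
    have hN2 : (N : ℝ) = B + 1 - m0 := by exact_mod_cast hN1
    have h3 := grid_step hδ hanti hf0 h1.le h2 N
    have h4 : ∑ k ∈ Finset.range N, f (τ + δ * (m0 : ℝ) + δ * k) ≤
        ∑ m ∈ Finset.Icc (-(B : ℤ)) (B : ℤ), F m := by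
      have h5 : ∑ k ∈ Finset.range N, f (τ + δ * (m0 : ℝ) + δ * k) =
          ∑ m ∈ (Finset.range N).image (fun k : ℕ => m0 + (k : ℤ)), F m := by
        rw [Finset.sum_image]
        · refine Finset.sum_congr rfl fun k _ => ?_
          have h6 : τ + δ * ((m0 + (k : ℤ) : ℤ) : ℝ) = τ + δ * (m0 : ℝ) + δ * k := by
            push_cast; ring
          have h7 : y < τ + δ * ((m0 + (k : ℤ) : ℤ) : ℝ) := by
            rw [h6]
            have : 0 ≤ δ * (k : ℝ) := by positivity
            linarith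
          rw [hF]
          dsimp only
          rw [if_pos h7, h6]
        · intro a _ b _ hab
          have : (a : ℤ) = b := by linarith [show m0 + (a : ℤ) = m0 + b from hab]
          exact_mod_cast this
      rw [h5]
      refine Finset.sum_le_sum_of_subset_of_nonneg ?_ fun m _ _ => hF0 m
      intro m hm
      obtain ⟨k, hk, rfl⟩ := Finset.mem_image.1 hm
      have hk' : (k : ℤ) < N := by exact_mod_cast Finset.mem_range.1 hk
      rw [Finset.mem_Icc]
      constructor
      · have : (0 : ℤ) ≤ k := Int.natCast_nonneg k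
        linarith
      · linarith
    -- the integral up to the last point
    have h5 : M ≤ τ + δ * (m0 : ℝ) + δ * N := by
      have e : τ + δ * (m0 : ℝ) + δ * N = τ + δ * B + δ := by rw [hN2]; ring
      have := neg_abs_le τ
      rw [e]; linarith
    have h6 : (∫ x in y..M, f x) ≤ ∫ x in y..(τ + δ * (m0 : ℝ) + δ * N), f x := by
      rw [← intervalIntegral.integral_add_adjacent_intervals (anti_int hanti le_rfl hyM)
        (anti_int hanti hyM h5)]
      have := intervalIntegral.integral_nonneg (μ := volume) h5 fun x _ => hf0 x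
      linarith
    have h7 : (∫ x in y..M, f x) ≤ δ * (f y + ∑ m ∈ Finset.Icc (-(B : ℤ)) (B : ℤ), F m) := by
      have := mul_le_mul_of_nonneg_left h4 hδ.le
      rw [mul_add]
      linarith
    have h8 : 1 / δ * (∫ x in y..M, f x) ≤ f y + ∑ m ∈ Finset.Icc (-(B : ℤ)) (B : ℤ), F m := by
      rw [one_div, inv_mul_le_iff₀ hδ]
      exact h7
    linarith

end Pool.Agent.Lib.MP_b4205f_al.H81
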